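import Mathlib
import Pool.Agent.Lib_helper62.MAFlowDefs
import Pool.Agent.Lib_helper62.MAFlowProof

namespace Pool.Agent.Results.MP_8f0dee_an.LogPoleNoFlow

open Pool.Agent.Lib_helper62.MAFlow

/-- **Negative answer in every dimension, on every domain and on every time interval.**
The unit ball is a strictly pseudoconvex domain. For every bounded strictly pseudoconvex domain `Ω`
with smooth boundary and every `T > 0`: for every `a ∈ Ω` the plurisubharmonic function
`u₀ = log ‖z - a‖` has admissible boundary data `φ` for which the flow has no solution; and the flow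
has no solution for any admissible data `(u₀, φ)` such that `u₀` has a logarithmic pole in `Ω`. -/
theorem result (n : ℕ) (hn : 1 ≤ n) :
    IsStrictlyPseudoconvex (Metric.ball (0 : Cn n) 1) ∧
    ∀ (Ω : Set (Cn n)) (T : ℝ), IsStrictlyPseudoconvex Ω → 0 < T →
      (∀ a ∈ Ω, ∃ φ : Cn n → ℝ → ℝ, IsData Ω T (logE a) φ ∧
        ¬ ∃ u : Cn n → ℝ → ℝ, IsSolution Ω T (logE a) φ u) ∧
      (∀ (u₀ : Cn n → EReal) (φ : Cn n → ℝ → ℝ), IsData Ω T u₀ φ →
        (∃ a ∈ Ω, HasLogPole u₀ a) → ¬ ∃ u : Cn n → ℝ → ℝ, IsSolution Ω T u₀ φ u) :=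
  main n hn

end Pool.Agent.Results.MP_8f0dee_an.LogPoleNoFlow
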